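import Pool.Agent.Q18.Anz5

/-!
MP_f3d5fe_al, Q1: there is a function `f : ℝ → ℝ` with `|G| ≤ f (anz G)` for every nonabelian
`p`-group `G`, for all primes `p`.
-/

namespace Pool.Agent.Results.MP_f3d5fe_al.OrderBound

/-- `χ` is an irreducible complex character of `G`: the character of a finite-dimensional
irreducible complex representation. -/
def IsIrrChar {G : Type} [Group G] (χ : G → ℂ) : Prop :=
  ∃ (V : Type) (_ : AddCommGroup V) (_ : Module ℂ V) (_ : FiniteDimensional ℂ V)
    (ρ : Representation ℂ G V), ρ.IsIrreducible ∧ χ = ρ.character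

/-- `z(G)`: the number of pairs `(χ, K)` of an irreducible character and a conjugacy class with
`χ = 0` on `K`. -/
noncomputable def numZeros (G : Type) [Group G] : ℕ :=
  Nat.card {x : (G → ℂ) × ConjClasses G //
    IsIrrChar x.1 ∧ ∀ g : G, ConjClasses.mk g = x.2 → x.1 g = 0}

/-- `anz(G) = z(G) / k(G)`. -/
noncomputable def anz (G : Type) [Group G] : ℝ :=
  (numZeros G : ℝ) / (Nat.card (ConjClasses G) : ℝ)

open Pool.Agent.Q18.Anz Pool.Agent.Helper884.IC in
theorem numZeros_eq (G : Type) [Group G] [Fintype G] : numZeros G = zz G := by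
  classical
  unfold numZeros zz
  have h1 : Nat.card {x : (G → ℂ) × ConjClasses G //
      IsIrrChar x.1 ∧ ∀ g : G, ConjClasses.mk g = x.2 → x.1 g = 0} =
      (((Irr G) ×ˢ (Finset.univ : Finset (ConjClasses G))).filter
        (fun x => ∀ g : G, ConjClasses.mk g = x.2 → x.1 g = 0)).card := by
    apply Nat.subtype_card
    intro x
    rw [Finset.mem_filter, Finset.mem_product, mem_Irr]
    constructor
    · rintro ⟨⟨h1, -⟩, h2⟩
      exact ⟨h1, h2⟩
    · rintro ⟨h1, h2⟩
      exact ⟨⟨h1, Finset.mem_univ _⟩, h2⟩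
  rw [h1, Finset.card_filter, Finset.sum_product_right]
  apply Finset.sum_congr rfl
  intro K _
  rw [← Finset.card_filter]

theorem result : ∃ f : ℝ → ℝ, ∀ (p : ℕ), p.Prime → ∀ (G : Type) [Group G] [Finite G],
    IsPGroup p G → (∃ x y : G, x * y ≠ y * x) → (Nat.card G : ℝ) ≤ f (anz G) := by
  choose f hf using Pool.Agent.Q18.Anz.bound
  refine ⟨f, ?_⟩
  intro p hp G _ _ hG hn
  have : Fintype G := Fintype.ofFinite G
  apply hf (anz G) p hp G hG hn
  unfold anz
  have h1 : (Pool.Agent.Q18.Anz.kk G : ℝ) = (Nat.card (ConjClasses G) : ℝ) := by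
    have := Pool.Agent.Q18.Anz.card_irr (G := G)
    exact_mod_cast this
  have h2 : (Nat.card (ConjClasses G) : ℝ) ≠ 0 := by
    rw [← h1]
    exact_mod_cast (Pool.Agent.Q18.Anz.kk_pos (G := G)).ne'
  rw [numZeros_eq, h1, div_mul_cancel₀ _ h2]

end Pool.Agent.Results.MP_f3d5fe_al.OrderBound
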